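import Pool.Agent.H692R2.Eq6

/-!
# EQUIDOMINATION is in P

Deciding whether a graph, given by adjacency lists, is equidominating can be done in polynomial
time; in particular the problem is in NP.

The proof gives a first-order characterisation of equidominating graphs
(`Pool.Agent.H692R2.Equi.equidominating_iff`).  Call `N[v] ∪ {w}` a block if any two of its
vertices `x`, `y` which are distinct and non-adjacent satisfy `N[x] ∪ {y} = N[v] ∪ {w}` (so a block
is the closed neighbourhood of a simplicial vertex, or a cocktail-party module together with its
neighbourhood, a clique).  A graph with at least one vertex is equidominating if and only if its
blocks cover all vertices and no minimal dominating set contains two different vertices `a`, `b`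
of a block which are both adjacent to all other vertices of the block.
-/

namespace Pool.Agent.Results.MP_e5edb0_lc.EquidominationInP

open Pool.Agent.NPC Pool.Agent.H692R2.Equi

/-- EQUIDOMINATION is in P, and hence in NP. -/
theorem result : InPP EquidominationL ∧ InNPP EquidominationL := by
  have h : InPP EquidominationL := inPP_of_PP pp_equidominationL
  exact ⟨h, InP.inNP h⟩

end Pool.Agent.Results.MP_e5edb0_lc.EquidominationInP
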